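import Mathlib
import Pool.Agent.H13.KuraF

namespace Pool.Agent.Results.MP_2fe47b_co.BelowThreeQuarters
open Finset

open Classical in
/-- The energy on the torus `(ℝ/2πℤ)^n`. -/
noncomputable def energy {n : ℕ} (G : SimpleGraph (Fin n)) (θ : Fin n → Real.Angle) : ℝ :=
  1 / 2 * ∑ i, ∑ j, G.adjMatrix ℝ i j * (1 - (θ i - θ j).cos)

/-- Every local minimum of the energy is a constant configuration. -/
def GloballySync {n : ℕ} (G : SimpleGraph (Fin n)) : Prop :=
  ∀ θ : Fin n → Real.Angle, IsLocalMin (energy G) θ → ∃ c, ∀ i, θ i = c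

open Classical in
lemma main (n : ℕ) (G : SimpleGraph (Fin n)) (h : (3 / 4 - 1 / 10 ^ 24 : ℝ) * n ≤ G.minDegree) :
    GloballySync G := by
  intro θ hθ
  choose φ hφ using fun i => (Real.Angle.induction_on (θ i) fun x => ⟨x, rfl⟩ :
    ∃ x : ℝ, (x : Real.Angle) = θ i)
  have c : Continuous fun (ψ : Fin n → ℝ) i => (ψ i : Real.Angle) :=
    continuous_pi fun i => Real.Angle.continuous_coe.comp (continuous_apply i)
  have e : θ = fun i => (φ i : Real.Angle) := funext fun i => (hφ i).symm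
  have l : IsLocalMin (energy G) ((fun (ψ : Fin n → ℝ) i => (ψ i : Real.Angle)) φ) := by
    rw [e] at hθ; exact hθ
  have l2 := l.comp_continuous c.continuousAt
  have l3 : IsLocalMin (H13.Kura.En (G.adjMatrix ℝ)) φ := by
    filter_upwards [l2] with ψ hψ
    simp only [Function.comp, energy, ← Real.Angle.coe_sub, Real.Angle.cos_coe] at hψ
    have s : ∀ x y : ℝ, Real.cos (x - y) = Real.cos (y - x) := fun x y => by
      rw [← Real.cos_neg, neg_sub]
    have t : ∀ ψ : Fin n → ℝ, H13.Kura.En (G.adjMatrix ℝ) ψ =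
        ∑ i, ∑ j, G.adjMatrix ℝ i j * (1 - Real.cos (ψ i - ψ j)) := fun ψ =>
      sum_congr rfl fun i _ => sum_congr rfl fun j _ => by rw [s]
    rw [t, t]
    linarith
  have k := H13.Kura.graph G φ (fun i => by
    have : (G.minDegree : ℝ) ≤ G.degree i := by exact_mod_cast G.minDegree_le_degree i
    linarith) l3
  rcases n with _ | n
  · exact ⟨0, fun i => i.elim0⟩
  refine ⟨θ 0, fun i => ?_⟩
  obtain ⟨m, hm⟩ := (Real.cos_eq_one_iff _).1 (k 0 i)
  rw [← hφ, ← hφ, Real.Angle.angle_eq_iff_two_pi_dvd_sub]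
  exact ⟨m, by linarith⟩

open Classical in
theorem result : ∃ ε : ℝ, 0 < ε ∧ ∀ (n : ℕ) (G : SimpleGraph (Fin n)),
    (3 / 4 - ε) * n ≤ G.minDegree → GloballySync G :=
  ⟨1 / 10 ^ 24, by norm_num, main⟩

end Pool.Agent.Results.MP_2fe47b_co.BelowThreeQuarters
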